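import Mathlib

namespace Pool.Agent.Results.MP_346ba0_al.CaminaThirdTerm

open scoped commutatorElement

/-- `N` is a normal subgroup of `G` with `1 < N < G`, and for every `g` outside `N` every element
of the coset `gN` is conjugate to `g`. -/
def IsCaminaPair {G : Type} [Group G] (N : Subgroup G) : Prop :=
  N.Normal ∧ N ≠ ⊥ ∧ N ≠ ⊤ ∧ ∀ g : G, g ∉ N → ∀ n ∈ N, ∃ x : G, x⁻¹ * g * x = g * n

/-- The term `G_i` of the lower central series, numbered so that `G_1 = G`, `G_{i+1} = [G_i, G]`. -/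
def lcsTerm (G : Type) [Group G] (i : ℕ) : Subgroup G :=
  (⊤ : Subgroup G).lowerCentralSeries (i - 1)

/-- The input data of the construction. -/
structure Dat (F K : Type) [Field F] [Field K] [Algebra F K] where
  w : K
  hw : ∀ x y : K, 3 * x ^ 2 + w * y ^ 2 = 0 → x = 0 ∧ y = 0
  hw' : ∀ x y : K, x ^ 2 + 3 * w * y ^ 2 = 0 → x = 0 ∧ y = 0
  T : K →ₗ[F] F
  T_one : T 1 = 1
  b : K →ₗ[F] K →ₗ[F] F
  hb : ∀ u, u ≠ 0 → ∀ t : F, ∃ u', b u u' - b u' u = t

section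
variable {F K : Type} [Field F] [Field K] [Algebra F K] (D : Dat F K)

/-- underlying set of the group -/
@[ext] structure Gp (D : Dat F K) where
  t : K
  u : K
  m : K
  n : K
  a : K
  b : K
  d : K
  e : F

/-- the polynomial part of the last coordinate of a product -/
def Dat.P (x y : Gp D) : K :=
  (2 * x.t * y.d + 6 * x.t ^ 2 * y.a - 4 * x.t ^ 3 * y.n - x.t ^ 4 * y.u)
  + 6 * (x.m * (y.a - 2 * x.t * y.n - x.t ^ 2 * y.u) - y.m * x.a)
  + 6 * (x.n * (y.b + 2 * x.t * y.m) - (y.n + x.t * y.u) * x.b)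
  + 6 * (x.m - y.m) * (x.u * y.m - y.u * x.m)
  + 2 * D.w * (x.n - (y.n + x.t * y.u)) * (x.u * (y.n + x.t * y.u) - y.u * x.n)

instance : Mul (Gp D) where
  mul x y :=
    { t := x.t + y.t
      u := x.u + y.u
      m := x.m + y.m
      n := x.n + y.n + x.t * y.u
      a := x.a + (y.a - 2 * x.t * y.n - x.t ^ 2 * y.u) + 3 * (x.u * y.m - y.u * x.m)
      b := x.b + (y.b + 2 * x.t * y.m) + D.w * (x.u * (y.n + x.t * y.u) - y.u * x.n)
      d := x.d + (y.d + 6 * x.t * y.a - 6 * x.t ^ 2 * y.n - 2 * x.t ^ 3 * y.u)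
        - 12 * (x.m * (y.n + x.t * y.u) - y.m * x.n)
        + 3 * (x.u * (y.b + 2 * x.t * y.m) - y.u * x.b)
        + D.w * (x.u - y.u) * (x.u * (y.n + x.t * y.u) - y.u * x.n)
      e := x.e + y.e + D.T (D.P x y) + D.b x.u y.u }

instance : One (Gp D) where one := ⟨0, 0, 0, 0, 0, 0, 0, 0⟩

@[simp] lemma mul_t (x y : Gp D) : (x * y).t = x.t + y.t := rfl
@[simp] lemma mul_u (x y : Gp D) : (x * y).u = x.u + y.u := rfl
@[simp] lemma mul_m (x y : Gp D) : (x * y).m = x.m + y.m := rfl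
@[simp] lemma mul_n (x y : Gp D) : (x * y).n = x.n + y.n + x.t * y.u := rfl
@[simp] lemma mul_a (x y : Gp D) : (x * y).a =
    x.a + (y.a - 2 * x.t * y.n - x.t ^ 2 * y.u) + 3 * (x.u * y.m - y.u * x.m) := rfl
@[simp] lemma mul_b (x y : Gp D) : (x * y).b =
    x.b + (y.b + 2 * x.t * y.m) + D.w * (x.u * (y.n + x.t * y.u) - y.u * x.n) := rfl
@[simp] lemma mul_d (x y : Gp D) : (x * y).d =
    x.d + (y.d + 6 * x.t * y.a - 6 * x.t ^ 2 * y.n - 2 * x.t ^ 3 * y.u)
        - 12 * (x.m * (y.n + x.t * y.u) - y.m * x.n)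
        + 3 * (x.u * (y.b + 2 * x.t * y.m) - y.u * x.b)
        + D.w * (x.u - y.u) * (x.u * (y.n + x.t * y.u) - y.u * x.n) := rfl
@[simp] lemma mul_e (x y : Gp D) : (x * y).e =
    x.e + y.e + D.T (D.P x y) + D.b x.u y.u := rfl
@[simp] lemma one_t : (1 : Gp D).t = 0 := rfl
@[simp] lemma one_u : (1 : Gp D).u = 0 := rfl
@[simp] lemma one_m : (1 : Gp D).m = 0 := rfl
@[simp] lemma one_n : (1 : Gp D).n = 0 := rfl
@[simp] lemma one_a : (1 : Gp D).a = 0 := rfl
@[simp] lemma one_b : (1 : Gp D).b = 0 := rfl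
@[simp] lemma one_d : (1 : Gp D).d = 0 := rfl
@[simp] lemma one_e : (1 : Gp D).e = 0 := rfl

lemma P_assoc (x y z : Gp D) : D.P x y + D.P (x * y) z = D.P y z + D.P x (y * z) := by
  unfold Dat.P
  simp only [mul_t, mul_u, mul_m, mul_n, mul_a, mul_b, mul_d]
  ring

lemma mul_assoc' (x y z : Gp D) : x * y * z = x * (y * z) := by
  ext
  · simp; ring
  · simp; ring
  · simp; ring
  · simp; ring
  · simp; ring
  · simp; ring
  · simp; ring
  · have key := congrArg D.T (P_assoc D x y z)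
    rw [map_add, map_add] at key
    simp only [mul_e, mul_u, map_add, LinearMap.add_apply]
    linear_combination key

lemma one_mul' (x : Gp D) : 1 * x = x := by
  ext <;> simp [Dat.P]

instance : Inv (Gp D) where
  inv x :=
    let y : Gp D :=
      { t := -x.t
        u := -x.u
        m := -x.m
        n := -x.n + x.t * x.u
        a := -x.a - 2 * x.t * x.n + x.t ^ 2 * x.u
        b := -x.b + 2 * x.t * x.m
        d := -x.d + 6 * x.t * x.a + 6 * x.t ^ 2 * x.n - 2 * x.t ^ 3 * x.u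
        e := 0 }
    { y with e := -x.e - D.T (D.P y x) - D.b y.u x.u }

lemma inv_mul' (x : Gp D) : x⁻¹ * x = 1 := by
  ext
  · change -x.t + x.t = 0; ring
  · change -x.u + x.u = 0; ring
  · change -x.m + x.m = 0; ring
  · change -x.n + x.t * x.u + x.n + (-x.t) * x.u = 0; ring
  · rw [mul_a]
    change (-x.a - 2 * x.t * x.n + x.t ^ 2 * x.u) + (x.a - 2 * (-x.t) * x.n - (-x.t) ^ 2 * x.u)
      + 3 * ((-x.u) * x.m - x.u * (-x.m)) = 0
    ring
  · rw [mul_b]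
    change (-x.b + 2 * x.t * x.m) + (x.b + 2 * (-x.t) * x.m)
      + D.w * ((-x.u) * (x.n + (-x.t) * x.u) - x.u * (-x.n + x.t * x.u)) = 0
    ring
  · rw [mul_d]
    change (-x.d + 6 * x.t * x.a + 6 * x.t ^ 2 * x.n - 2 * x.t ^ 3 * x.u)
      + (x.d + 6 * (-x.t) * x.a - 6 * (-x.t) ^ 2 * x.n - 2 * (-x.t) ^ 3 * x.u)
        - 12 * ((-x.m) * (x.n + (-x.t) * x.u) - x.m * (-x.n + x.t * x.u))
        + 3 * ((-x.u) * (x.b + 2 * (-x.t) * x.m) - x.u * (-x.b + 2 * x.t * x.m))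
        + D.w * ((-x.u) - x.u) * ((-x.u) * (x.n + (-x.t) * x.u) - x.u * (-x.n + x.t * x.u)) = 0
    ring
  · rw [mul_e]
    have h1 : x⁻¹.e = -x.e - D.T (D.P x⁻¹ x) - D.b x⁻¹.u x.u := rfl
    rw [h1]
    change _ = (0 : F)
    ring

instance : Group (Gp D) := Group.ofLeftAxioms (mul_assoc' D) (one_mul' D) (inv_mul' D)

/-- elements with trivial `t, u` -/
def subV : Subgroup (Gp D) where
  carrier := {x | x.t = 0 ∧ x.u = 0 ∧ x.m = 0}
  one_mem' := ⟨rfl, rfl, rfl⟩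
  mul_mem' {x y} hx hy := by
    obtain ⟨h1, h2, h3⟩ := hx; obtain ⟨h4, h5, h6⟩ := hy
    refine ⟨?_, ?_, ?_⟩
    · rw [mul_t, h1, h4, add_zero]
    · rw [mul_u, h2, h5, add_zero]
    · rw [mul_m, h3, h6, add_zero]
  inv_mem' {x} hx := by
    obtain ⟨h1, h2, h3⟩ := hx
    refine ⟨?_, ?_, ?_⟩
    · change -x.t = 0; rw [h1, neg_zero]
    · change -x.u = 0; rw [h2, neg_zero]
    · change -x.m = 0; rw [h3, neg_zero]

/-- elements with trivial `t, u, m, n` -/
def subN : Subgroup (Gp D) where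
  carrier := {x | x.t = 0 ∧ x.u = 0 ∧ x.m = 0 ∧ x.n = 0}
  one_mem' := ⟨rfl, rfl, rfl, rfl⟩
  mul_mem' {x y} hx hy := by
    obtain ⟨h1, h2, h3, h7⟩ := hx; obtain ⟨h4, h5, h6, h8⟩ := hy
    refine ⟨?_, ?_, ?_, ?_⟩
    · rw [mul_t, h1, h4, add_zero]
    · rw [mul_u, h2, h5, add_zero]
    · rw [mul_m, h3, h6, add_zero]
    · rw [mul_n, h7, h8, h1]; ring
  inv_mem' {x} hx := by
    obtain ⟨h1, h2, h3, h4⟩ := hx
    refine ⟨?_, ?_, ?_, ?_⟩
    · change -x.t = 0; rw [h1, neg_zero]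
    · change -x.u = 0; rw [h2, neg_zero]
    · change -x.m = 0; rw [h3, neg_zero]
    · change -x.n + x.t * x.u = 0; rw [h1, h4]; ring

/-- elements with only the last two coordinates -/
def subN2 : Subgroup (Gp D) where
  carrier := {x | x.t = 0 ∧ x.u = 0 ∧ x.m = 0 ∧ x.n = 0 ∧ x.a = 0 ∧ x.b = 0}
  one_mem' := ⟨rfl, rfl, rfl, rfl, rfl, rfl⟩
  mul_mem' {x y} hx hy := by
    obtain ⟨h1, h2, h3, h4, h5, h6⟩ := hx; obtain ⟨k1, k2, k3, k4, k5, k6⟩ := hy
    refine ⟨?_, ?_, ?_, ?_, ?_, ?_⟩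
    · rw [mul_t, h1, k1, add_zero]
    · rw [mul_u, h2, k2, add_zero]
    · rw [mul_m, h3, k3, add_zero]
    · rw [mul_n, h4, k4, h1]; ring
    · rw [mul_a, h5, k5, h1, h2, k2]; ring
    · rw [mul_b, h6, k6, h1, h2, k2]; ring
  inv_mem' {x} hx := by
    obtain ⟨h1, h2, h3, h4, h5, h6⟩ := hx
    refine ⟨?_, ?_, ?_, ?_, ?_, ?_⟩
    · change -x.t = 0; rw [h1, neg_zero]
    · change -x.u = 0; rw [h2, neg_zero]
    · change -x.m = 0; rw [h3, neg_zero]
    · change -x.n + x.t * x.u = 0; rw [h1, h4]; ring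
    · change -x.a - 2 * x.t * x.n + x.t ^ 2 * x.u = 0; rw [h1, h5]; ring
    · change -x.b + 2 * x.t * x.m = 0; rw [h1, h6]; ring

/-- elements with only the last coordinate -/
def subN3 : Subgroup (Gp D) where
  carrier := {x | x.t = 0 ∧ x.u = 0 ∧ x.m = 0 ∧ x.n = 0 ∧ x.a = 0 ∧ x.b = 0 ∧ x.d = 0}
  one_mem' := ⟨rfl, rfl, rfl, rfl, rfl, rfl, rfl⟩
  mul_mem' {x y} hx hy := by
    obtain ⟨h1, h2, h3, h4, h5, h6, h7⟩ := hx; obtain ⟨k1, k2, k3, k4, k5, k6, k7⟩ := hy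
    refine ⟨?_, ?_, ?_, ?_, ?_, ?_, ?_⟩
    · rw [mul_t, h1, k1, add_zero]
    · rw [mul_u, h2, k2, add_zero]
    · rw [mul_m, h3, k3, add_zero]
    · rw [mul_n, h4, k4, h1]; ring
    · rw [mul_a, h5, k5, h1, h2, k2]; ring
    · rw [mul_b, h6, k6, h1, h2, k2]; ring
    · rw [mul_d, h7, k7, h1, h2, k2, h3, k3]; ring
  inv_mem' {x} hx := by
    obtain ⟨h1, h2, h3, h4, h5, h6, h7⟩ := hx
    refine ⟨?_, ?_, ?_, ?_, ?_, ?_, ?_⟩
    · change -x.t = 0; rw [h1, neg_zero]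
    · change -x.u = 0; rw [h2, neg_zero]
    · change -x.m = 0; rw [h3, neg_zero]
    · change -x.n + x.t * x.u = 0; rw [h1, h4]; ring
    · change -x.a - 2 * x.t * x.n + x.t ^ 2 * x.u = 0; rw [h1, h5]; ring
    · change -x.b + 2 * x.t * x.m = 0; rw [h1, h6]; ring
    · change -x.d + 6 * x.t * x.a + 6 * x.t ^ 2 * x.n - 2 * x.t ^ 3 * x.u = 0
      rw [h1, h7]; ring

lemma comm_eq (x y : Gp D) : ⁅x, y⁆ * (y * x) = x * y := by
  rw [commutatorElement_def]; group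

lemma mul_comm_n3 (z : Gp D) (hz : z ∈ subN3 D) (y : Gp D) : z * y = y * z := by
  obtain ⟨h1, h2, h3, h4, h5, h6, h7⟩ := hz
  ext
  · simp [add_comm]
  · simp [add_comm]
  · simp [add_comm]
  · simp [h1, h2, h4]
  · simp [h1, h2, h3, h4, h5]
  · simp [h1, h2, h3, h4, h6]
  · simp [h1, h2, h3, h4, h5, h6, h7]
  · simp [Dat.P, h1, h2, h3, h4, h5, h6, h7, add_comm]

/-- the factor by which an element of `subN2` changes when moved past `y` -/
lemma conj_n2 (z : Gp D) (hz : z ∈ subN2 D) (y : Gp D) : y⁻¹ * z * y ∈ subN2 D := by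
  obtain ⟨h1, h2, h3, h4, h5, h6⟩ := hz
  have key : z * y = y * ⟨0, 0, 0, 0, 0, 0, z.d, z.e - D.T (2 * y.t * z.d)⟩ := by
    ext
    · simp [h1]
    · simp [h2]
    · simp [h3]
    · simp [h1, h4]
    · simp [h1, h2, h3, h5]
    · simp [h1, h2, h4, h6]
    · simp [h1, h2, h3, h4, h6, add_comm]
    · simp [Dat.P, h1, h2, h3, h4, h5, h6]; ring
  have : y⁻¹ * z * y = ⟨0, 0, 0, 0, 0, 0, z.d, z.e - D.T (2 * y.t * z.d)⟩ := by
    rw [mul_assoc, key, ← mul_assoc, inv_mul_cancel, one_mul]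
  rw [this]
  exact ⟨rfl, rfl, rfl, rfl, rfl, rfl⟩

lemma lcs1_le : lcsTerm (Gp D) 2 ≤ subV D := by
  change ⁅(⊤ : Subgroup (Gp D)), ⊤⁆ ≤ subV D
  rw [Subgroup.commutator_le]
  intro x _ y _
  have h := comm_eq D x y
  have h1 := congrArg Gp.t h
  have h2 := congrArg Gp.u h
  have h3 := congrArg Gp.m h
  simp only [mul_t, mul_u, mul_m] at h1 h2 h3
  exact ⟨by linear_combination h1, by linear_combination h2, by linear_combination h3⟩

lemma lcs2_le : lcsTerm (Gp D) 3 ≤ subN D := by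
  change ⁅lcsTerm (Gp D) 2, (⊤ : Subgroup (Gp D))⁆ ≤ subN D
  rw [Subgroup.commutator_le]
  intro x hx y _
  obtain ⟨k1, k2, k3⟩ := lcs1_le D hx
  have h := comm_eq D x y
  have h1 := congrArg Gp.t h
  have h2 := congrArg Gp.u h
  have h3 := congrArg Gp.m h
  have h4 := congrArg Gp.n h
  simp only [mul_t, mul_u, mul_m, mul_n] at h1 h2 h3 h4
  have g1 : (⁅x, y⁆ : Gp D).t = 0 := by linear_combination h1
  have g2 : (⁅x, y⁆ : Gp D).u = 0 := by linear_combination h2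
  have g3 : (⁅x, y⁆ : Gp D).m = 0 := by linear_combination h3
  refine ⟨g1, g2, g3, ?_⟩
  rw [g1, k1, k2] at h4; linear_combination h4

lemma lcs3_le : lcsTerm (Gp D) 4 ≤ subN2 D := by
  change ⁅lcsTerm (Gp D) 3, (⊤ : Subgroup (Gp D))⁆ ≤ subN2 D
  rw [Subgroup.commutator_le]
  intro x hx y _
  obtain ⟨k1, k2, k3, k4⟩ := lcs2_le D hx
  have h := comm_eq D x y
  have h1 := congrArg Gp.t h
  have h2 := congrArg Gp.u h
  have h3 := congrArg Gp.m h
  have h4 := congrArg Gp.n h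
  have h5 := congrArg Gp.a h
  have h6 := congrArg Gp.b h
  simp only [mul_t, mul_u, mul_m, mul_n, mul_a, mul_b] at h1 h2 h3 h4 h5 h6
  have g1 : (⁅x, y⁆ : Gp D).t = 0 := by linear_combination h1
  have g2 : (⁅x, y⁆ : Gp D).u = 0 := by linear_combination h2
  have g3 : (⁅x, y⁆ : Gp D).m = 0 := by linear_combination h3
  have g4 : (⁅x, y⁆ : Gp D).n = 0 := by
    rw [g1, k1, k2] at h4; linear_combination h4
  refine ⟨g1, g2, g3, g4, ?_, ?_⟩
  · rw [g1, g2, g3, k1, k2, k3, k4] at h5; linear_combination h5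
  · rw [g1, g2, g4, k1, k2, k3, k4] at h6; linear_combination h6

lemma lcs4_le : lcsTerm (Gp D) 5 ≤ subN3 D := by
  change ⁅lcsTerm (Gp D) 4, (⊤ : Subgroup (Gp D))⁆ ≤ subN3 D
  rw [Subgroup.commutator_le]
  intro x hx y _
  obtain ⟨k1, k2, k3, k4, k5, k6⟩ := lcs3_le D hx
  have hN := lcs3_le D (show ⁅x, y⁆ ∈ lcsTerm (Gp D) 4 from
    Subgroup.commutator_mem_commutator
      (Subgroup.lowerCentralSeries_antitone (⊤ : Subgroup (Gp D)) (by norm_num : 2 ≤ 3) hx)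
      (Subgroup.mem_top _))
  obtain ⟨g1, g2, g3, g4, g5, g6⟩ := hN
  have h7 := congrArg Gp.d (comm_eq D x y)
  simp only [mul_u, mul_m, mul_n, mul_b, mul_d] at h7
  refine ⟨g1, g2, g3, g4, g5, g6, ?_⟩
  rw [g1, g2, g3, g4, g6, k1, k2, k3, k4, k5, k6] at h7
  linear_combination h7

lemma lcs5_eq : lcsTerm (Gp D) 6 = ⊥ := by
  rw [eq_bot_iff]
  change ⁅lcsTerm (Gp D) 5, (⊤ : Subgroup (Gp D))⁆ ≤ ⊥
  rw [Subgroup.commutator_le]
  intro x hx y _
  rw [Subgroup.mem_bot, commutatorElement_eq_one_iff_mul_comm]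
  exact mul_comm_n3 D x (lcs4_le D hx) y

lemma T_surj (t : F) : ∃ x : K, D.T x = t :=
  ⟨algebraMap F K t, by
    rw [← mul_one (algebraMap F K t), ← Algebra.smul_def, map_smul, D.T_one, smul_eq_mul, mul_one]⟩

/-- reduction of the last step to coordinates -/
lemma mk_sol (g y : Gp D) (e0 : F) (hn : (g * y).n = (y * g).n) (ha : (g * y).a = (y * g).a)
    (hb : (g * y).b = (y * g).b) (hd : (g * y).d = (y * g).d)
    (he : D.T (D.P g y) + D.b g.u y.u = e0 + D.T (D.P y g) + D.b y.u g.u) :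
    g * y = y * (g * ⟨0, 0, 0, 0, 0, 0, 0, e0⟩) := by
  have h0 : g * ⟨0, 0, 0, 0, 0, 0, 0, e0⟩ = ⟨g.t, g.u, g.m, g.n, g.a, g.b, g.d, g.e + e0⟩ := by
    ext <;> simp [Dat.P]
  rw [h0]
  ext
  · simp [add_comm]
  · simp [add_comm]
  · simp [add_comm]
  · exact hn
  · exact ha
  · exact hb
  · exact hd
  · rw [mul_e, mul_e]
    have h1 : D.P y ⟨g.t, g.u, g.m, g.n, g.a, g.b, g.d, g.e + e0⟩ = D.P y g := rfl
    rw [h1]
    linear_combination he

/-- solving in the last coordinate -/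
lemma step_a (h2 : (2 : K) ≠ 0) (h12 : (12 : K) ≠ 0) (g : Gp D) (hg : g ∉ subN D) (z : Gp D)
    (hz : z ∈ subN3 D) : ∃ y : Gp D, g * y = y * (g * z) := by
  obtain ⟨zt, zu, zm, zn, za, zb, zd, e0⟩ := z
  obtain ⟨h1, h2', h3, h4, h5, h6, h7⟩ := hz
  simp only at h1 h2' h3 h4 h5 h6 h7
  subst h1 h2' h3 h4 h5 h6 h7
  obtain ⟨k, hk⟩ := T_surj D e0
  by_cases ht : g.t = 0
  · by_cases hu : g.u = 0
    · -- now (m, n) ≠ 0
      obtain ⟨a1, b1, hab⟩ : ∃ a1 b1 : K, 12 * (g.m * a1 + g.n * b1) = k := by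
        by_cases hm : g.m = 0
        · have hn : g.n ≠ 0 := fun h => hg ⟨ht, hu, hm, h⟩
          refine ⟨0, k / (12 * g.n), ?_⟩
          field_simp
          ring
        · refine ⟨k / (12 * g.m), 0, ?_⟩
          field_simp
          ring
      refine ⟨⟨0, 0, 0, 0, a1, b1, 0, 0⟩, mk_sol D g _ e0 ?_ ?_ ?_ ?_ ?_⟩
      · simp [hu]
      · simp [hu]; ring
      · simp [hu]; ring
      · simp [ht, hu]
      · have p1 : D.P g ⟨0, 0, 0, 0, a1, b1, 0, 0⟩ = 6 * (g.m * a1 + g.n * b1) := by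
          simp [Dat.P, ht, hu]; ring
        have p2 : D.P ⟨0, 0, 0, 0, a1, b1, 0, 0⟩ g = -(6 * (g.m * a1 + g.n * b1)) := by
          simp [Dat.P, hu]; ring
        have e1 : D.T (12 * (g.m * a1 + g.n * b1)) =
            D.T (6 * (g.m * a1 + g.n * b1)) + D.T (6 * (g.m * a1 + g.n * b1)) := by
          rw [← map_add]; congr 1; ring
        rw [p1, p2, hu, map_neg, ← hk, ← hab]
        simp only [map_zero]
        linear_combination -e1
    · obtain ⟨u', hu'⟩ := D.hb g.u hu e0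
      obtain ⟨κ, hκ⟩ : ∃ κ, u' = κ * g.u := ⟨u' / g.u, by field_simp⟩
      refine ⟨⟨0, κ * g.u, κ * g.m, κ * g.n, κ * g.a, κ * g.b, κ * g.d, 0⟩,
        mk_sol D g _ e0 ?_ ?_ ?_ ?_ ?_⟩
      · simp [ht]; ring
      · simp [ht]; ring
      · simp [ht]; ring
      · simp [ht]; ring
      · have p1 : D.P g ⟨0, κ * g.u, κ * g.m, κ * g.n, κ * g.a, κ * g.b, κ * g.d, 0⟩ =
            D.P ⟨0, κ * g.u, κ * g.m, κ * g.n, κ * g.a, κ * g.b, κ * g.d, 0⟩ g := by
          simp [Dat.P, ht]; ring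
        rw [p1]
        change _ + D.b g.u (κ * g.u) = _ + D.b (κ * g.u) g.u
        rw [← hκ]
        linear_combination hu'
  · refine ⟨⟨0, 0, 0, 0, 0, 0, k / (2 * g.t), 0⟩, mk_sol D g _ e0 ?_ ?_ ?_ ?_ ?_⟩
    · simp
    · simp
    · simp
    · simp; ring
    · have p1 : D.P g ⟨0, 0, 0, 0, 0, 0, k / (2 * g.t), 0⟩ = k := by
        simp [Dat.P]; field_simp
      have p2 : D.P ⟨0, 0, 0, 0, 0, 0, k / (2 * g.t), 0⟩ g = 0 := by
        simp [Dat.P]
      rw [p1, p2, hk]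
      simp

/-- solving in the `d` coordinate -/
lemma step_b (h2 : (2 : K) ≠ 0) (h12 : (12 : K) ≠ 0) (g : Gp D) (hg : g ∉ subN D) (z : Gp D)
    (hz : z ∈ subN2 D) : ∃ y : Gp D, ∃ c ∈ subN3 D, g * y = y * (g * z) * c := by
  have h3 : (3 : K) ≠ 0 := by
    intro h; apply h12; linear_combination 4 * h
  have h6 : (6 : K) ≠ 0 := by
    intro h; apply h12; linear_combination 2 * h
  have h24 : (24 : K) ≠ 0 := by
    intro h; apply mul_ne_zero h2 h12; linear_combination h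
  obtain ⟨zt, zu, zm, zn, za, zb, d0, e0⟩ := z
  obtain ⟨k1, k2, k3, k4, k5, k6⟩ := hz
  simp only at k1 k2 k3 k4 k5 k6
  subst k1 k2 k3 k4 k5 k6
  -- it suffices to solve all coordinates but the last
  suffices h : ∃ y : Gp D, (g * y).n = (y * g).n ∧ (g * y).a = (y * g).a ∧
      (g * y).b = (y * g).b ∧ (g * y).d = (y * g).d + d0 by
    obtain ⟨y, hn, ha, hb, hd⟩ := h
    refine ⟨y, ⟨0, 0, 0, 0, 0, 0, 0, (g * y).e - (y * (g * ⟨0, 0, 0, 0, 0, 0, d0, e0⟩)).e⟩,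
      ⟨rfl, rfl, rfl, rfl, rfl, rfl, rfl⟩, ?_⟩
    ext
    · simp [add_comm]
    · simp [add_comm]
    · simp [add_comm]
    · simp at hn ⊢; linear_combination hn
    · simp at ha ⊢; linear_combination ha
    · simp at hb ⊢; linear_combination hb
    · simp at hd ⊢; linear_combination hd
    · set X := y * (g * ⟨0, 0, 0, 0, 0, 0, d0, e0⟩) with hX
      have p : D.P X ⟨0, 0, 0, 0, 0, 0, 0, (g * y).e - X.e⟩ = 0 := by
        simp [Dat.P]
      rw [mul_e D X, p, map_zero, map_zero]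
      ring
  by_cases ht : g.t = 0
  · by_cases hu : g.u = 0
    · obtain ⟨m1, n1, hab⟩ : ∃ m1 n1 : K, -24 * (g.m * n1 - m1 * g.n) = d0 := by
        by_cases hm : g.m = 0
        · have hn : g.n ≠ 0 := fun h => hg ⟨ht, hu, hm, h⟩
          refine ⟨d0 / (24 * g.n), 0, ?_⟩
          field_simp
          ring
        · refine ⟨0, - d0 / (24 * g.m), ?_⟩
          field_simp
          ring
      refine ⟨⟨0, 0, m1, n1, 0, 0, 0, 0⟩, ?_, ?_, ?_, ?_⟩
      · simp [add_comm]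
      · simp [ht, hu]
      · simp [ht, hu]
      · simp [ht, hu]; linear_combination hab
    · refine ⟨⟨0, 0, 0, 0, 0, d0 / (6 * g.u), 0, 0⟩, ?_, ?_, ?_, ?_⟩
      · simp
      · simp
      · simp; ring
      · simp; field_simp; ring_nf
  · refine ⟨⟨0, 0, 0, 0, d0 / (6 * g.t), 0, 0, 0⟩, ?_, ?_, ?_, ?_⟩
    · simp
    · simp; ring
    · simp
    · simp; field_simp

/-- solving in the `a, b` coordinates -/
lemma step_c (h2 : (2 : K) ≠ 0) (g : Gp D) (hg : g ∉ subN D) (z : Gp D)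
    (hz : z ∈ subN D) : ∃ y : Gp D, ∃ c ∈ subN2 D, g * y = y * (g * z) * c := by
  obtain ⟨zt, zu, zm, zn, a0, b0, d0, e0⟩ := z
  obtain ⟨k1, k2, k3, k4⟩ := hz
  simp only at k1 k2 k3 k4
  subst k1 k2 k3 k4
  suffices h : ∃ y : Gp D, (g * y).n = (y * g).n ∧ (g * y).a = (y * g).a + a0 ∧
      (g * y).b = (y * g).b + b0 by
    obtain ⟨y, hn, ha, hb⟩ := h
    refine ⟨y, (y * (g * ⟨0, 0, 0, 0, a0, b0, d0, e0⟩))⁻¹ * (g * y), ?_, ?_⟩
    · set X := y * (g * ⟨0, 0, 0, 0, a0, b0, d0, e0⟩) with hX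
      set c := X⁻¹ * (g * y) with hc
      have hXc : X * c = g * y := by rw [hc, mul_inv_cancel_left]
      have h1 := congrArg Gp.t hXc
      have h2 := congrArg Gp.u hXc
      have h3 := congrArg Gp.m hXc
      have h4 := congrArg Gp.n hXc
      have h5 := congrArg Gp.a hXc
      have h6 := congrArg Gp.b hXc
      rw [mul_t] at h1
      rw [mul_u] at h2
      rw [mul_m] at h3
      rw [mul_n, hn] at h4
      rw [mul_a, ha] at h5
      rw [mul_b, hb] at h6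
      have X1 : X.t = (g * y).t := by simp [hX, add_comm]
      have X2 : X.u = (g * y).u := by simp [hX, add_comm]
      have X3 : X.m = (g * y).m := by simp [hX, add_comm]
      have X4 : X.n = (y * g).n := by simp [hX]
      have X5 : X.a = (y * g).a + a0 := by simp [hX]; ring
      have X6 : X.b = (y * g).b + b0 := by simp [hX]; ring
      have c1 : c.t = 0 := by linear_combination h1 - X1
      have c2 : c.u = 0 := by linear_combination h2 - X2
      have c3 : c.m = 0 := by linear_combination h3 - X3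
      rw [c2] at h4 h5 h6
      have c4 : c.n = 0 := by linear_combination h4 - X4
      rw [c3, c4] at h5
      rw [c3, c4] at h6
      have c5 : c.a = 0 := by linear_combination h5 - X5
      have c6 : c.b = 0 := by linear_combination h6 - X6
      exact ⟨c1, c2, c3, c4, c5, c6⟩
    · rw [mul_inv_cancel_left]
  by_cases htu : g.t = 0 ∧ g.u = 0
  · obtain ⟨ht, hu⟩ := htu
    -- 2 t1 n - 6 u1 m = a0, -2 t1 m - 2 w u1 n = b0
    have hdet : 3 * g.m ^ 2 + D.w * g.n ^ 2 ≠ 0 := by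
      intro h
      obtain ⟨hm, hn⟩ := D.hw _ _ h
      exact hg ⟨ht, hu, hm, hn⟩
    set δ := 3 * g.m ^ 2 + D.w * g.n ^ 2 with hδ
    refine ⟨⟨(D.w * g.n * a0 - 3 * g.m * b0) / (2 * δ), -(g.m * a0 + g.n * b0) / (2 * δ), 0, 0,
      0, 0, 0, 0⟩, ?_, ?_, ?_⟩
    · simp [ht, hu]
    · simp [ht, hu]; field_simp; rw [hδ]; ring
    · simp [ht, hu]; field_simp; rw [hδ]; ring
  · -- 6 u m1 - 2 t n1 = a0, 2 t m1 + 2 w u n1 = b0
    have hdet : g.t ^ 2 + 3 * D.w * g.u ^ 2 ≠ 0 := by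
      intro h
      exact htu (D.hw' _ _ h)
    set δ := g.t ^ 2 + 3 * D.w * g.u ^ 2 with hδ
    refine ⟨⟨0, 0, (D.w * g.u * a0 + g.t * b0) / (2 * δ), (3 * g.u * b0 - g.t * a0) / (2 * δ),
      0, 0, 0, 0⟩, ?_, ?_, ?_⟩
    · simp; ring
    · simp; field_simp; rw [hδ]; ring
    · simp; field_simp; rw [hδ]; ring

lemma camina_step (h2 : (2 : K) ≠ 0) (h12 : (12 : K) ≠ 0) (g : Gp D) (hg : g ∉ subN D)
    (n : Gp D) (hn : n ∈ subN D) : ∃ x : Gp D, x⁻¹ * g * x = g * n := by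
  -- last coordinate, then `subN2`, then `subN`
  have hb : ∀ n ∈ subN2 D, ∃ y : Gp D, g * y = y * (g * n) := by
    intro n hn
    obtain ⟨y, c, hc, hy⟩ := step_b D h2 h12 g hg n hn
    obtain ⟨y', hy'⟩ := step_a D h2 h12 g hg c⁻¹ (inv_mem hc)
    refine ⟨y' * y, ?_⟩
    calc g * (y' * y) = y' * (g * c⁻¹) * y := by rw [← hy', mul_assoc]
      _ = y' * (g * (c⁻¹ * y)) := by group
      _ = y' * (g * (y * c⁻¹)) := by rw [mul_comm_n3 D c⁻¹ (inv_mem hc) y]
      _ = y' * (g * y) * c⁻¹ := by group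
      _ = y' * y * (g * n) := by rw [hy]; group
  have hc : ∀ n ∈ subN D, ∃ y : Gp D, g * y = y * (g * n) := by
    intro n hn
    obtain ⟨y, c, hc, hy⟩ := step_c D h2 g hg n hn
    have hc' : y * c⁻¹ * y⁻¹ ∈ subN2 D := by
      have := conj_n2 D c⁻¹ (inv_mem hc) y⁻¹
      rwa [inv_inv] at this
    obtain ⟨y', hy'⟩ := hb _ hc'
    refine ⟨y' * y, ?_⟩
    calc g * (y' * y) = y' * (g * (y * c⁻¹ * y⁻¹)) * y := by rw [← hy', mul_assoc]
      _ = y' * (g * y) * c⁻¹ := by group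
      _ = y' * y * (g * n) := by rw [hy]; group
  obtain ⟨y, hy⟩ := hc n hn
  exact ⟨y, by rw [mul_assoc, hy, ← mul_assoc, inv_mul_cancel, one_mul]⟩

lemma exists_lcs1 : ∃ x ∈ lcsTerm (Gp D) 2, x ∉ subN D := by
  let x : Gp D := ⟨1, 0, 0, 0, 0, 0, 0, 0⟩
  let y : Gp D := ⟨0, 1, 0, 0, 0, 0, 0, 0⟩
  refine ⟨⁅x, y⁆, Subgroup.commutator_mem_commutator (Subgroup.mem_top _) (Subgroup.mem_top _), ?_⟩
  intro hN
  obtain ⟨h1, h2, h3, h4⟩ := hN
  have h := congrArg Gp.n (comm_eq D x y)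
  simp only [mul_u, mul_n] at h
  rw [h1, h4] at h
  have : (1 : K) = 0 := by
    have hx1 : x.t = 1 := rfl
    have hx2 : x.n = 0 := rfl
    have hy1 : y.t = 0 := rfl
    have hy2 : y.n = 0 := rfl
    have hy3 : y.u = 1 := rfl
    have hx3 : x.u = 0 := rfl
    simp only [hx1, hx2, hy2, hy3, hx3] at h
    linear_combination -h
  exact one_ne_zero this

lemma lcs2_eq (h2 : (2 : K) ≠ 0) (h12 : (12 : K) ≠ 0) : lcsTerm (Gp D) 3 = subN D := by
  apply le_antisymm (lcs2_le D)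
  intro n hn
  obtain ⟨x, hx, hxN⟩ := exists_lcs1 D
  obtain ⟨y, hy⟩ := camina_step D h2 h12 x hxN n hn
  have h : n = ⁅x⁻¹, y⁻¹⁆ := by
    rw [commutatorElement_def, inv_inv, inv_inv, mul_assoc, mul_assoc, ← mul_assoc y⁻¹, hy]
    group
  rw [h]
  exact Subgroup.commutator_mem_commutator (inv_mem hx) (Subgroup.mem_top _)

lemma lcs4_ne (h2 : (2 : K) ≠ 0) (h12 : (12 : K) ≠ 0) : lcsTerm (Gp D) 5 ≠ ⊥ := by
  intro hbot
  let y : Gp D := ⟨1, 0, 0, 0, 0, 0, 0, 0⟩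
  let x : Gp D := ⟨0, 0, 0, 0, -12⁻¹, 0, 0, 0⟩
  have hx : x ∈ lcsTerm (Gp D) 3 := by rw [lcs2_eq D h2 h12]; exact ⟨rfl, rfl, rfl, rfl⟩
  have hc1 : ⁅x, y⁆ ∈ lcsTerm (Gp D) 4 :=
    Subgroup.commutator_mem_commutator hx (Subgroup.mem_top _)
  set c := ⁅x, y⁆ with hc
  have hcd : c.d = 2⁻¹ := by
    obtain ⟨g1, g2, g3, g4, g5, g6⟩ := lcs3_le D hc1
    have h := congrArg Gp.d (comm_eq D x y)
    rw [← hc] at h
    simp only [mul_u, mul_m, mul_n, mul_a, mul_b, mul_d] at h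
    rw [g1, g2, g3, g4, g6] at h
    have e1 : x.t = 0 := rfl
    have e2 : x.u = 0 := rfl
    have e3 : x.m = 0 := rfl
    have e4 : x.n = 0 := rfl
    have e5 : x.a = -12⁻¹ := rfl
    have e6 : x.b = 0 := rfl
    have e7 : x.d = 0 := rfl
    have f1 : y.t = 1 := rfl
    have f2 : y.u = 0 := rfl
    have f3 : y.m = 0 := rfl
    have f4 : y.n = 0 := rfl
    have f5 : y.a = 0 := rfl
    have f6 : y.b = 0 := rfl
    have f7 : y.d = 0 := rfl
    simp only [e1, e2, e3, e4, e5, e6, e7, f1, f2, f3, f4, f5, f6, f7] at h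
    have h6 : (6 : K) ≠ 0 := by
      intro h; apply h12; linear_combination 2 * h
    have h' : c.d = 6 * 12⁻¹ := by linear_combination h
    rw [h']
    field_simp
    norm_num
  have hc2 : ⁅c, y⁆ ∈ lcsTerm (Gp D) 5 :=
    Subgroup.commutator_mem_commutator hc1 (Subgroup.mem_top _)
  rw [hbot, Subgroup.mem_bot, commutatorElement_eq_one_iff_mul_comm] at hc2
  obtain ⟨g1, g2, g3, g4, g5, g6⟩ := lcs3_le D hc1
  have h := congrArg Gp.e hc2
  rw [mul_e, mul_e] at h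
  have p1 : D.P c y = 0 := by
    have f2 : y.u = 0 := rfl
    have f3 : y.m = 0 := rfl
    have f4 : y.n = 0 := rfl
    have f5 : y.a = 0 := rfl
    have f6 : y.b = 0 := rfl
    have f7 : y.d = 0 := rfl
    simp [Dat.P, g1, g2, g3, g4, f2, f3, f4, f5, f6, f7]
  have p2 : D.P y c = 1 := by
    have f1 : y.t = 1 := rfl
    have f2 : y.u = 0 := rfl
    have f3 : y.m = 0 := rfl
    have f4 : y.n = 0 := rfl
    simp only [Dat.P, g2, g3, g4, g5, g6, f1, f2, f3, f4, hcd]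
    field_simp
    ring
  rw [p1, p2, map_zero, g2, D.T_one] at h
  have h' : (1 : F) = 0 := by
    simp only [map_zero, LinearMap.zero_apply] at h
    linear_combination -h
  exact one_ne_zero h'

lemma result_aux (h2 : (2 : K) ≠ 0) (h12 : (12 : K) ≠ 0) :
    IsCaminaPair (subN D) ∧ lcsTerm (Gp D) 5 ≠ ⊥ ∧ lcsTerm (Gp D) 6 = ⊥ ∧
      subN D = lcsTerm (Gp D) 3 ∧ subN D ≠ lcsTerm (Gp D) 4 ∧ subN D ≠ lcsTerm (Gp D) 5 := by
  have hx : (⟨0, 0, 0, 0, 1, 0, 0, 0⟩ : Gp D) ∈ subN D := ⟨rfl, rfl, rfl, rfl⟩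
  refine ⟨⟨?_, ?_, ?_, ?_⟩, lcs4_ne D h2 h12, lcs5_eq D, (lcs2_eq D h2 h12).symm, ?_, ?_⟩
  · rw [← lcs2_eq D h2 h12]; unfold lcsTerm; infer_instance
  · intro h
    rw [h, Subgroup.mem_bot] at hx
    have := congrArg Gp.a hx
    exact one_ne_zero this
  · intro h
    have : (⟨1, 0, 0, 0, 0, 0, 0, 0⟩ : Gp D) ∈ subN D := by rw [h]; exact Subgroup.mem_top _
    exact one_ne_zero this.1
  · exact fun g hg n hn => camina_step D h2 h12 g hg n hn
  · intro h
    rw [h] at hx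
    exact one_ne_zero (lcs3_le D hx).2.2.2.2.1
  · intro h
    rw [h] at hx
    exact one_ne_zero (lcs4_le D hx).2.2.2.2.1

end

section
variable (p : ℕ) [hp : Fact p.Prime]

lemma exists_dat (h5 : 5 ≤ p) (h3 : (3 : GaloisField p 2) ≠ 0) :
    Nonempty (Dat (ZMod p) (GaloisField p 2)) := by
  classical
  obtain ⟨nu, hnu⟩ := FiniteField.exists_nonsquare (F := GaloisField p 2) (by
    rw [ringChar.eq (GaloisField p 2) p]; omega)
  have key : ∀ x y : GaloisField p 2, x ^ 2 - nu * y ^ 2 = 0 → x = 0 ∧ y = 0 := by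
    intro x y h
    have hy : y = 0 := by
      by_contra hy
      apply hnu
      refine ⟨x / y, ?_⟩
      field_simp
      linear_combination -h
    refine ⟨?_, hy⟩
    rw [hy] at h
    have : x ^ 2 = 0 := by linear_combination h
    exact pow_eq_zero_iff (two_ne_zero) |>.mp this
  obtain ⟨T, hT⟩ := LinearMap.exists_leftInverse_of_injective
    (Algebra.linearMap (ZMod p) (GaloisField p 2))
    (LinearMap.ker_eq_bot.mpr (algebraMap (ZMod p) (GaloisField p 2)).injective)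
  have hrank : Module.finrank (ZMod p) (GaloisField p 2) = 2 := GaloisField.finrank p (by norm_num)
  let B : Module.Basis (Fin 2) (ZMod p) (GaloisField p 2) :=
    Module.finBasisOfFinrankEq _ _ hrank
  let b : GaloisField p 2 →ₗ[ZMod p] GaloisField p 2 →ₗ[ZMod p] ZMod p :=
    LinearMap.mk₂ (ZMod p) (fun x y => B.repr x 0 * B.repr y 1)
      (by intro x y z; simp; ring) (by intro c x y; simp; ring)
      (by intro x y z; simp; ring) (by intro c x y; simp; ring)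
  have hb : ∀ x y, b x y = B.repr x 0 * B.repr y 1 := fun x y => rfl
  refine ⟨{ w := -3 * nu, hw := ?_, hw' := ?_, T := T, T_one := ?_, b := b, hb := ?_ }⟩
  · intro x y h
    apply key
    have : 3 * (x ^ 2 - nu * y ^ 2) = 0 := by linear_combination h
    exact (mul_eq_zero.mp this).resolve_left h3
  · intro x y h
    obtain ⟨hx, hy⟩ := key x (3 * y) (by linear_combination h)
    exact ⟨hx, (mul_eq_zero.mp hy).resolve_left h3⟩
  · have := LinearMap.congr_fun hT 1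
    simpa using this
  · intro u hu t
    by_cases h0 : B.repr u 0 = 0
    · have h1 : B.repr u 1 ≠ 0 := by
        intro h1
        apply hu
        apply B.repr.injective
        ext i
        fin_cases i
        · simpa using h0
        · simpa using h1
      refine ⟨(-t / B.repr u 1) • B 0, ?_⟩
      rw [hb, hb]
      simp [h0]
      field_simp
    · refine ⟨(t / B.repr u 0) • B 1, ?_⟩
      rw [hb, hb]
      simp
      field_simp

end

/-- For every prime `p ≥ 5` there is a finite `p`-group (of order `p ^ 15`) of nilpotence class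
`c = 5` with a Camina pair `(G, N)` such that `N` is neither `G_{c-1}` nor `G_c`
(in fact `N = G_3`). -/
theorem result : ∀ p : ℕ, p.Prime → 5 ≤ p →
    ∃ (G : Type) (_ : Group G), Finite G ∧ IsPGroup p G ∧ Nat.card G = p ^ 15 ∧
      ∃ (c : ℕ) (N : Subgroup G), c = 5 ∧ lcsTerm G c ≠ ⊥ ∧ lcsTerm G (c + 1) = ⊥ ∧
        IsCaminaPair N ∧ N = lcsTerm G 3 ∧ N ≠ lcsTerm G (c - 1) ∧ N ≠ lcsTerm G c := by
  intro p hp h5
  have : Fact p.Prime := ⟨hp⟩
  have hne : ∀ m : ℕ, 0 < m → Nat.Coprime m p → (m : GaloisField p 2) ≠ 0 := by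
    intro m hm hco h
    rw [CharP.cast_eq_zero_iff (GaloisField p 2) p] at h
    have := Nat.Coprime.eq_one_of_dvd hco.symm h
    omega
  have hc2 : Nat.Coprime 2 p := (Nat.coprime_primes Nat.prime_two hp).mpr (by omega)
  have hc3 : Nat.Coprime 3 p := (Nat.coprime_primes Nat.prime_three hp).mpr (by omega)
  have hc12 : Nat.Coprime 12 p := Nat.Coprime.mul_left (Nat.Coprime.mul_left hc2 hc2) hc3
  have h2 : (2 : GaloisField p 2) ≠ 0 := by exact_mod_cast hne 2 (by norm_num) hc2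
  have h3 : (3 : GaloisField p 2) ≠ 0 := by exact_mod_cast hne 3 (by norm_num) hc3
  have h12 : (12 : GaloisField p 2) ≠ 0 := by exact_mod_cast hne 12 (by norm_num) hc12
  obtain ⟨D⟩ := exists_dat p h5 h3
  let e : Gp D ≃ GaloisField p 2 × GaloisField p 2 × GaloisField p 2 × GaloisField p 2 ×
      GaloisField p 2 × GaloisField p 2 × GaloisField p 2 × ZMod p :=
    { toFun := fun x => (x.t, x.u, x.m, x.n, x.a, x.b, x.d, x.e)
      invFun := fun x => ⟨x.1, x.2.1, x.2.2.1, x.2.2.2.1, x.2.2.2.2.1, x.2.2.2.2.2.1,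
        x.2.2.2.2.2.2.1, x.2.2.2.2.2.2.2⟩
      left_inv := fun x => rfl
      right_inv := fun x => rfl }
  have hfin : Finite (Gp D) := Finite.of_equiv _ e.symm
  have hcard : Nat.card (Gp D) = p ^ 15 := by
    rw [Nat.card_congr e]
    simp only [Nat.card_prod, Nat.card_zmod, GaloisField.card p 2 (by norm_num)]
    ring
  obtain ⟨r1, r2, r3, r4, r5, r6⟩ := result_aux D h2 h12
  exact ⟨Gp D, inferInstance, hfin, IsPGroup.of_card hcard, hcard, 5, subN D, rfl, r2, r3, r1, r4,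
    r5, r6⟩

end Pool.Agent.Results.MP_346ba0_al.CaminaThirdTerm
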